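import Mathlib
set_option autoImplicit false

/-!
Local structure of claw-free cubic graphs: internal and external edges, nodes, middle vertices.
-/

namespace Pool.Agent.Helper97K9.ClawFree

variable {V : Type*} {G : SimpleGraph V}

/-- An edge lying in a triangle. -/
def Int (G : SimpleGraph V) (u v : V) : Prop := G.Adj u v ∧ ∃ w, G.Adj u w ∧ G.Adj v w

/-- An edge lying in no triangle. -/
def Ext (G : SimpleGraph V) (u v : V) : Prop := G.Adj u v ∧ ¬ ∃ w, G.Adj u w ∧ G.Adj v w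

/-- Claw-free cubic graphs, in elementary terms. -/
structure CF (G : SimpleGraph V) : Prop where
  cub : ∀ v, ∃ a b c, a ≠ b ∧ a ≠ c ∧ b ≠ c ∧ ∀ w, G.Adj v w ↔ w = a ∨ w = b ∨ w = c
  claw : ∀ v a b c, a ≠ b → a ≠ c → b ≠ c → G.Adj v a → G.Adj v b → G.Adj v c →
    G.Adj a b ∨ G.Adj a c ∨ G.Adj b c

theorem Int.symm {u v : V} (h : Int G u v) : Int G v u :=
  ⟨h.1.symm, let ⟨w, h1, h2⟩ := h.2; ⟨w, h2, h1⟩⟩

theorem Ext.symm {u v : V} (h : Ext G u v) : Ext G v u :=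
  ⟨h.1.symm, fun ⟨w, h1, h2⟩ => h.2 ⟨w, h2, h1⟩⟩

theorem int_or_ext {u v : V} (h : G.Adj u v) : Int G u v ∨ Ext G u v := by
  by_cases hh : ∃ w, G.Adj u w ∧ G.Adj v w
  · exact Or.inl ⟨h, hh⟩
  · exact Or.inr ⟨h, hh⟩

theorem not_int_ext {u v : V} (h : Int G u v) (h' : Ext G u v) : False := h'.2 h.2

theorem four (h : CF G) {x p q r s : V} (hp : G.Adj x p) (hq : G.Adj x q) (hr : G.Adj x r)
    (hs : G.Adj x s) (h1 : p ≠ q) (h2 : p ≠ r) (h3 : p ≠ s) (h4 : q ≠ r) (h5 : q ≠ s)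
    (h6 : r ≠ s) : False := by
  obtain ⟨a, b, c, _, _, _, hn⟩ := h.cub x
  rw [hn] at hp hq hr hs
  grind

theorem nbr3 (h : CF G) {x p q r : V} (hp : G.Adj x p) (hq : G.Adj x q) (hr : G.Adj x r)
    (h1 : p ≠ q) (h2 : p ≠ r) (h3 : q ≠ r) (w : V) (hw : G.Adj x w) :
    w = p ∨ w = q ∨ w = r := by
  by_contra hcon
  push Not at hcon
  exact four h hw hp hq hr hcon.1 hcon.2.1 hcon.2.2 h1 h2 h3

theorem third (h : CF G) {u v w : V} :
    ∃ x, x ≠ v ∧ x ≠ w ∧ G.Adj u x := by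
  obtain ⟨a, b, c, h1, h2, h3, hn⟩ := h.cub u
  by_cases ha : a = v ∨ a = w
  · by_cases hb : b = v ∨ b = w
    · refine ⟨c, ?_, ?_, (hn c).2 (by simp)⟩ <;> grind
    · push Not at hb
      exact ⟨b, hb.1, hb.2, (hn b).2 (by simp)⟩
  · push Not at ha
    exact ⟨a, ha.1, ha.2, (hn a).2 (by simp)⟩

theorem ext_unique (h : CF G) {u v w : V} (hv : Ext G u v) (hw : Ext G u w) : v = w := by
  by_contra hne
  obtain ⟨x, hxv, hxw, hx⟩ := third h (u := u) (v := v) (w := w)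
  rcases h.claw u v w x hne (Ne.symm hxv) (Ne.symm hxw) hv.1 hw.1 hx with h1 | h1 | h1
  · exact hv.2 ⟨w, hw.1, h1⟩
  · exact hv.2 ⟨x, hx, h1⟩
  · exact hw.2 ⟨x, hx, h1⟩

/-- Being in the same node: joined by at most two internal edges. -/
def Near (G : SimpleGraph V) (u v : V) : Prop := u = v ∨ Int G u v ∨ ∃ z, Int G u z ∧ Int G z v

theorem near_three (h : CF G) {u w x v : V} (h1 : Int G u w) (h2 : Int G w x) (h3 : Int G x v) :
    Near G u v := by
  by_cases e1 : u = x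
  · subst e1; exact Or.inr (Or.inl h3)
  by_cases e2 : w = v
  · subst e2; exact Or.inr (Or.inl h1)
  by_cases e3 : G.Adj u x
  · exact Or.inr (Or.inr ⟨x, ⟨e3, w, h1.1, h2.1.symm⟩, h3⟩)
  by_cases e4 : G.Adj w v
  · exact Or.inr (Or.inr ⟨w, h1, ⟨e4, x, h2.1, h3.1.symm⟩⟩)
  by_cases e5 : u = v
  · exact Or.inl e5
  obtain ⟨z, hz1, hz2⟩ := h2.2
  obtain ⟨z', hz1', hz2'⟩ := h1.2
  have hzx : z ≠ x := fun e => by subst e; exact G.irrefl hz2
  have hzu : z ≠ u := fun e => by subst e; exact e3 hz2.symm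
  have hzu' : z' ≠ u := fun e => by subst e; exact G.irrefl hz1'
  have hzx' : z' ≠ x := fun e => by subst e; exact e3 hz1'
  have hzz : z = z' := by
    by_contra hne
    exact four h h1.1.symm h2.1 hz1 hz2' e1 (Ne.symm hzu) (Ne.symm hzu') (Ne.symm hzx)
      (Ne.symm hzx') hne
  subst hzz
  by_cases e6 : v = z
  · subst e6
    exact Or.inr (Or.inl ⟨hz1', w, h1.1, hz1.symm⟩)
  obtain ⟨y, hy1, hy2⟩ := h3.2
  have hwz : w ≠ z := fun e => by subst e; exact G.irrefl hz1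
  have hy := nbr3 h h2.1.symm hz2 h3.1 hwz e2 (Ne.symm e6) y hy1
  rcases hy with rfl | rfl | rfl
  · exact (e4 hy2.symm).elim
  · have hwx : w ≠ x := h2.1.ne
    have hwu : w ≠ u := h1.1.ne'
    have := nbr3 h hz1'.symm hz1.symm hz2.symm (Ne.symm hwu) e1 hwx v hy2.symm
    rcases this with rfl | rfl | rfl
    · exact (e5 rfl).elim
    · exact (e2 rfl).elim
    · exact (G.irrefl h3.1).elim
  · exact (G.irrefl hy2).elim

theorem Near.symm {u v : V} (h : Near G u v) : Near G v u := by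
  rcases h with rfl | h | ⟨z, h1, h2⟩
  · exact Or.inl rfl
  · exact Or.inr (Or.inl h.symm)
  · exact Or.inr (Or.inr ⟨z, h2.symm, h1.symm⟩)

theorem Near.step (h : CF G) {u v w : V} (h1 : Near G u v) (h2 : Int G v w) : Near G u w := by
  rcases h1 with rfl | h1 | ⟨z, h1, h3⟩
  · exact Or.inr (Or.inl h2)
  · exact Or.inr (Or.inr ⟨v, h1, h2⟩)
  · exact near_three h h1 h3 h2

theorem Near.trans (h : CF G) {u v w : V} (h1 : Near G u v) (h2 : Near G v w) : Near G u w := by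
  rcases h2 with rfl | h2 | ⟨z, h2, h3⟩
  · exact h1
  · exact h1.step h h2
  · exact (h1.step h h2).step h h3

/-- The partition of the vertices into nodes. -/
def nodeSetoid (h : CF G) : Setoid V where
  r := Near G
  iseqv := ⟨fun _ => Or.inl rfl, fun h => h.symm, fun h1 h2 => h1.trans h h2⟩

/-- Nodes: triangles, diamonds and copies of `K₄`. -/
abbrev Node (h : CF G) : Type _ := Quotient (nodeSetoid h)

/-- The node of a vertex. -/
def nd (h : CF G) (v : V) : Node h := Quotient.mk _ v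

theorem nd_eq_iff (h : CF G) {u v : V} : nd h u = nd h v ↔ Near G u v := Quotient.eq

theorem nd_of_int (h : CF G) {u v : V} (hi : Int G u v) : nd h u = nd h v :=
  (nd_eq_iff h).2 (Or.inr (Or.inl hi))

theorem int_of_nd (h : CF G) {u v : V} (hn : nd h u = nd h v) (ha : G.Adj u v) : Int G u v := by
  rcases (nd_eq_iff h).1 hn with rfl | h1 | ⟨z, h1, h2⟩
  · exact (G.irrefl ha).elim
  · exact h1
  · exact ⟨ha, z, h1.1, h2.1.symm⟩

theorem nd_ne_of_ext (h : CF G) {u v : V} (he : Ext G u v) : nd h u ≠ nd h v :=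
  fun hn => not_int_ext (int_of_nd h hn he.1) he

/-- Two nodes joined by an external edge. -/
def NA (h : CF G) (n m : Node h) : Prop := ∃ x y, nd h x = n ∧ nd h y = m ∧ Ext G x y

theorem NA.symm (h : CF G) {n m : Node h} (hn : NA h n m) : NA h m n :=
  let ⟨x, y, h1, h2, h3⟩ := hn; ⟨y, x, h2, h1, h3.symm⟩

theorem NA.irrefl (h : CF G) (n : Node h) : ¬ NA h n n :=
  fun ⟨_, _, h1, h2, h3⟩ => nd_ne_of_ext h h3 (h1.trans h2.symm)

/-- A vertex without external neighbour. -/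
def Mid (G : SimpleGraph V) (v : V) : Prop := ∀ w, ¬ Ext G v w

/-- A node with a vertex without external neighbour (a diamond or a `K₄`). -/
def HasMid (h : CF G) (n : Node h) : Prop := ∃ v, nd h v = n ∧ Mid G v

theorem mid_struct (h : CF G) {v : V} (hv : Mid G v) : ∃ v' a c, v' ≠ v ∧ a ≠ v ∧ c ≠ v ∧
    v' ≠ a ∧ v' ≠ c ∧ a ≠ c ∧ G.Adj v v' ∧ G.Adj v a ∧ G.Adj v c ∧ G.Adj v' a ∧ G.Adj v' c := by
  obtain ⟨a, b, c, hab, hac, hbc, hn⟩ := h.cub v
  have ha : G.Adj v a := (hn a).2 (by simp)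
  have hb : G.Adj v b := (hn b).2 (by simp)
  have hc : G.Adj v c := (hn c).2 (by simp)
  have key : ∀ x, G.Adj v x → ∃ w, (w = a ∨ w = b ∨ w = c) ∧ G.Adj x w := by
    intro x hx
    rcases int_or_ext hx with hi | he
    · obtain ⟨w, hw1, hw2⟩ := hi.2
      exact ⟨w, (hn w).1 hw1, hw2⟩
    · exact (hv x he).elim
  have e1 : G.Adj a b ∨ G.Adj a c := by
    obtain ⟨w, hw | hw | hw, hw2⟩ := key a ha
    · subst hw; exact (G.irrefl hw2).elim
    · subst hw; exact Or.inl hw2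
    · subst hw; exact Or.inr hw2
  have e2 : G.Adj a b ∨ G.Adj b c := by
    obtain ⟨w, hw | hw | hw, hw2⟩ := key b hb
    · subst hw; exact Or.inl hw2.symm
    · subst hw; exact (G.irrefl hw2).elim
    · subst hw; exact Or.inr hw2
  have e3 : G.Adj a c ∨ G.Adj b c := by
    obtain ⟨w, hw | hw | hw, hw2⟩ := key c hc
    · subst hw; exact Or.inl hw2.symm
    · subst hw; exact Or.inr hw2.symm
    · subst hw; exact (G.irrefl hw2).elim
  have na := ha.ne'
  have nb := hb.ne'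
  have nc := hc.ne'
  by_cases f1 : G.Adj a b
  · rcases e3 with f2 | f2
    · exact ⟨a, b, c, na, nb, nc, hab, hac, hbc, ha, hb, hc, f1, f2⟩
    · exact ⟨b, a, c, nb, na, nc, hab.symm, hbc, hac, hb, ha, hc, f1.symm, f2⟩
  · have f2 : G.Adj a c := e1.resolve_left f1
    have f3 : G.Adj b c := e2.resolve_left f1
    exact ⟨c, a, b, nc, na, nb, hac.symm, hbc.symm, hab, hc, ha, hb, f2.symm, f3.symm⟩

theorem mid_node (h : CF G) {v v' a c : V} (h1 : v' ≠ v) (h2 : a ≠ v) (h3 : c ≠ v)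
    (h4 : v' ≠ a) (h5 : v' ≠ c) (h6 : a ≠ c) (h7 : G.Adj v v') (h8 : G.Adj v a) (h9 : G.Adj v c)
    (h10 : G.Adj v' a) (h11 : G.Adj v' c) {x : V} (hx : nd h v = nd h x) :
    x = v ∨ x = v' ∨ x = a ∨ x = c := by
  have nv : ∀ w, G.Adj v w → w = v' ∨ w = a ∨ w = c := nbr3 h h7 h8 h9 h4 h5 h6
  have nv' : ∀ w, G.Adj v' w → w = v ∨ w = a ∨ w = c :=
    nbr3 h h7.symm h10 h11 h2.symm h3.symm h6
  have aux : ∀ b, G.Adj v b → G.Adj v' b → Int G b x → x = v ∨ x = v' ∨ x = a ∨ x = c := by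
    intro b hb hb' hi
    by_cases ev : x = v
    · exact Or.inl ev
    by_cases ev' : x = v'
    · exact Or.inr (Or.inl ev')
    obtain ⟨w, hw1, hw2⟩ := hi.2
    rcases nbr3 h hb.symm hb'.symm hi.1 h1.symm (Ne.symm ev) (Ne.symm ev') w hw1 with
      rfl | rfl | rfl
    · have := nv x hw2.symm
      tauto
    · have := nv' x hw2.symm
      tauto
    · exact (G.irrefl hw2).elim
  rcases (nd_eq_iff h).1 hx with rfl | hi | ⟨z, hi1, hi2⟩
  · exact Or.inl rfl
  · have := nv x hi.1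
    tauto
  · rcases nv z hi1.1 with rfl | rfl | rfl
    · have := nv' x hi2.1
      tauto
    · exact aux z h8 h10 hi2
    · exact aux z h9 h11 hi2

/-- The data of the two chosen middle vertices of a node with middle vertices. -/
structure MidPair (h : CF G) (n : Node h) (m₁ m₂ : V) : Prop where
  nd1 : nd h m₁ = n
  nd2 : nd h m₂ = n
  ne : m₁ ≠ m₂
  mid1 : Mid G m₁
  mid2 : Mid G m₂
  adj : G.Adj m₁ m₂
  adj1 : ∀ x, nd h x = n → x ≠ m₁ → x ≠ m₂ → G.Adj x m₁ ∧ G.Adj x m₂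
  two : ∀ x y z, nd h x = n → nd h y = n → nd h z = n → x ≠ m₁ → x ≠ m₂ → y ≠ m₁ → y ≠ m₂ →
    z ≠ m₁ → z ≠ m₂ → x = y ∨ x = z ∨ y = z

theorem exists_midPair (h : CF G) {n : Node h} (hn : HasMid h n) : ∃ m₁ m₂, MidPair h n m₁ m₂ := by
  obtain ⟨v, rfl, hv⟩ := hn
  obtain ⟨v', a, c, h1, h2, h3, h4, h5, h6, h7, h8, h9, h10, h11⟩ := mid_struct h hv
  have hnode : ∀ x, nd h x = nd h v → x = v ∨ x = v' ∨ x = a ∨ x = c := fun x hx =>
    mid_node h h1 h2 h3 h4 h5 h6 h7 h8 h9 h10 h11 hx.symm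
  refine ⟨v, v', rfl, ?_, h1.symm, hv, ?_, h7, ?_, ?_⟩
  · exact (nd_of_int h ⟨h7, a, h8, h10⟩).symm
  · intro w hw
    rcases nbr3 h h7.symm h10 h11 h2.symm h3.symm h6 w hw.1 with rfl | rfl | rfl
    · exact hw.2 ⟨a, h10, h8⟩
    · exact hw.2 ⟨v, h7.symm, h8.symm⟩
    · exact hw.2 ⟨v, h7.symm, h9.symm⟩
  · intro x hx hx1 hx2
    rcases hnode x hx with rfl | rfl | rfl | rfl
    · exact (hx1 rfl).elim
    · exact (hx2 rfl).elim
    · exact ⟨h8.symm, h10.symm⟩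
    · exact ⟨h9.symm, h11.symm⟩
  · intro x y z hx hy hz hx1 hx2 hy1 hy2 hz1 hz2
    have := hnode x hx
    have := hnode y hy
    have := hnode z hz
    grind

/-- In a node without middle vertices all vertices are adjacent. -/
theorem adj_of_not_hasMid (h : CF G) {x y : V} (hn : nd h x = nd h y) (hxy : x ≠ y)
    (hm : ¬ HasMid h (nd h x)) : G.Adj x y := by
  rcases (nd_eq_iff h).1 hn with rfl | hi | ⟨z, h1, h2⟩
  · exact (hxy rfl).elim
  · exact hi.1
  · have hz : nd h z = nd h x := (nd_of_int h h1).symm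
    have hzm : ¬ Mid G z := fun hzm => hm ⟨z, hz, hzm⟩
    unfold Mid at hzm
    push Not at hzm
    obtain ⟨e, he⟩ := hzm
    have hxe : x ≠ e := by
      rintro rfl
      exact not_int_ext h1.symm he
    have hye : y ≠ e := by
      rintro rfl
      exact not_int_ext h2 he
    rcases h.claw z x y e hxy hxe hye h1.1.symm h2.1 he.1 with h3 | h3 | h3
    · exact h3
    · exact (he.2 ⟨x, h1.1.symm, h3.symm⟩).elim
    · exact (he.2 ⟨y, h2.1, h3.symm⟩).elim

end Pool.Agent.Helper97K9.ClawFree
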