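import Pool.Agent.Helper97K9.ClawFree
set_option autoImplicit false

/-!
Maximal independent sets of nodes, the matching of the selected triangles, and cyclic sequences.
-/

namespace Pool.Agent.Helper97K9.ClawFree

open Finset

theorem exists_mis {α : Type*} [Finite α] (r : α → α → Prop) (hirr : ∀ x, ¬ r x x)
    (hsymm : ∀ x y, r x y → r y x) (P A0 : Set α) (h0 : A0 ⊆ P)
    (hind : ∀ x ∈ A0, ∀ y ∈ A0, ¬ r x y) :
    ∃ A : Set α, A0 ⊆ A ∧ A ⊆ P ∧ (∀ x ∈ A, ∀ y ∈ A, ¬ r x y) ∧
      ∀ x ∈ P, x ∉ A → ∃ y ∈ A, r x y := by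
  let S : Set (Set α) := {A | A0 ⊆ A ∧ A ⊆ P ∧ ∀ x ∈ A, ∀ y ∈ A, ¬ r x y}
  have hfin : S.Finite := Set.toFinite S
  obtain ⟨A, hA⟩ := hfin.exists_maximal ⟨A0, Set.Subset.rfl, h0, hind⟩
  obtain ⟨⟨h1, h2, h3⟩, hmax⟩ := hA
  refine ⟨A, h1, h2, h3, fun x hxP hxA => ?_⟩
  by_contra hcon
  push Not at hcon
  have hmem : insert x A ∈ S := by
    refine ⟨h1.trans (Set.subset_insert _ _), Set.insert_subset hxP h2, ?_⟩
    intro a ha b hb hab
    rcases ha with rfl | ha
    · rcases hb with rfl | hb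
      · exact hirr _ hab
      · exact hcon b hb hab
    · rcases hb with rfl | hb
      · exact hcon a ha (hsymm _ _ hab)
      · exact h3 a ha b hb hab
  exact hxA (hmax hmem (Set.subset_insert _ _) (Set.mem_insert _ _))

variable {V : Type*} {G : SimpleGraph V}

theorem exists_ext_of_not_mid {v : V} (hv : ¬ Mid G v) : ∃ w, Ext G v w := by
  unfold Mid at hv
  push Not at hv
  exact hv

theorem card_node_le [Fintype V] [DecidableEq V] (h : CF G) (n : Node h)
    [DecidablePred fun y => nd h y = n ∧ ¬ Mid G y] :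
    (univ.filter fun y => nd h y = n ∧ ¬ Mid G y).card ≤ 3 := by
  by_contra hcon
  push Not at hcon
  obtain ⟨y0, hy0⟩ : (univ.filter fun y => nd h y = n ∧ ¬ Mid G y).Nonempty :=
    card_pos.1 (by omega)
  have hsub : 2 < ((univ.filter fun y => nd h y = n ∧ ¬ Mid G y).erase y0).card := by
    rw [card_erase_of_mem hy0]
    omega
  obtain ⟨y1, h1, y2, h2, y3, h3, h12, h13, h23⟩ := two_lt_card.1 hsub
  simp only [mem_erase, mem_filter, mem_univ, true_and] at h1 h2 h3 hy0
  by_cases hm : HasMid h n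
  · obtain ⟨m₁, m₂, hp⟩ := exists_midPair h hm
    have hne : ∀ y, ¬ Mid G y → y ≠ m₁ ∧ y ≠ m₂ := by
      intro y hy
      exact ⟨fun e => hy (e ▸ hp.mid1), fun e => hy (e ▸ hp.mid2)⟩
    obtain ⟨a1, a2⟩ := hne y1 h1.2.2
    obtain ⟨b1, b2⟩ := hne y2 h2.2.2
    obtain ⟨c1, c2⟩ := hne y3 h3.2.2
    rcases hp.two y1 y2 y3 h1.2.1 h2.2.1 h3.2.1 a1 a2 b1 b2 c1 c2 with h | h | h
    · exact h12 h
    · exact h13 h
    · exact h23 h
  · obtain ⟨e, he⟩ := exists_ext_of_not_mid hy0.2
    have hadj : ∀ y, nd h y = n → y ≠ y0 → G.Adj y0 y ∧ y ≠ e := by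
      intro y hy hyy
      refine ⟨adj_of_not_hasMid h (hy0.1.trans hy.symm) (Ne.symm hyy) (hy0.1 ▸ hm), ?_⟩
      rintro rfl
      exact nd_ne_of_ext h he (hy0.1.trans hy.symm)
    obtain ⟨a1, a2⟩ := hadj y1 h1.2.1 h1.1
    obtain ⟨b1, b2⟩ := hadj y2 h2.2.1 h2.1
    obtain ⟨c1, c2⟩ := hadj y3 h3.2.1 h3.1
    exact four h a1 b1 c1 he.1 h12 h13 a2 h23 b2 c2

theorem three_le_card_node [Fintype V] [DecidableEq V] (h : CF G) (n : Node h)
    [DecidablePred fun y => nd h y = n] :
    3 ≤ (univ.filter fun y => nd h y = n).card := by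
  obtain ⟨x, rfl⟩ : ∃ x, nd h x = n := Quotient.exists_rep n
  obtain ⟨a, b, c, hab, hac, hbc, hn⟩ := h.cub x
  have ha : G.Adj x a := (hn a).2 (by simp)
  have hb : G.Adj x b := (hn b).2 (by simp)
  have hc : G.Adj x c := (hn c).2 (by simp)
  have key : ∃ p q, p ≠ q ∧ Int G x p ∧ Int G x q := by
    rcases int_or_ext ha with ia | ea
    · rcases int_or_ext hb with ib | eb
      · exact ⟨a, b, hab, ia, ib⟩
      · rcases int_or_ext hc with ic | ec
        · exact ⟨a, c, hac, ia, ic⟩
        · exact (hbc (ext_unique h eb ec)).elim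
    · rcases int_or_ext hb with ib | eb
      · rcases int_or_ext hc with ic | ec
        · exact ⟨b, c, hbc, ib, ic⟩
        · exact (hac (ext_unique h ea ec)).elim
      · exact (hab (ext_unique h ea eb)).elim
  obtain ⟨p, q, hpq, hp, hq⟩ := key
  have hsub : ({x, p, q} : Finset V) ⊆ univ.filter fun y => nd h y = nd h x := by
    intro y hy
    simp only [mem_insert, mem_singleton] at hy
    simp only [mem_filter, mem_univ, true_and]
    rcases hy with rfl | rfl | rfl
    · rfl
    · exact (nd_of_int h hp).symm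
    · exact (nd_of_int h hq).symm
  calc 3 = ({x, p, q} : Finset V).card := by
        rw [card_eq_three.2 ⟨x, p, q, hp.1.ne, hq.1.ne, hpq, rfl⟩]
    _ ≤ _ := card_le_card hsub

/-- The matching: the triangles of an independent set can be assigned distinct adjacent nodes. -/
theorem exists_matching [Finite V] (h : CF G) (I : Set (Node h)) :
    ∃ f : {n : Node h // n ∈ I ∧ ¬ HasMid h n} → Node h, Function.Injective f ∧
      ∀ n, NA h n.1 (f n) := by
  classical
  have := Fintype.ofFinite V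
  have : Finite (Node h) := Quotient.finite _
  have := Fintype.ofFinite (Node h)
  let t : {n : Node h // n ∈ I ∧ ¬ HasMid h n} → Finset (Node h) := fun n =>
    univ.filter fun m => NA h n.1 m
  have hall : ∀ s : Finset {n : Node h // n ∈ I ∧ ¬ HasMid h n}, s.card ≤ (s.biUnion t).card := by
    intro s
    have he : ∀ x : V, ∃ y, (¬ Mid G x → Ext G x y) := by
      intro x
      by_cases hx : Mid G x
      · exact ⟨x, fun h' => (h' hx).elim⟩
      · obtain ⟨y, hy⟩ := exists_ext_of_not_mid hx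
        exact ⟨y, fun _ => hy⟩
    choose e he using he
    let XA : Finset V := univ.filter fun x => ∃ n ∈ s, nd h x = n.1
    let YA : Finset V := univ.filter fun y => nd h y ∈ s.biUnion t ∧ ¬ Mid G y
    have hnm : ∀ x ∈ XA, ¬ Mid G x := by
      intro x hx hm
      obtain ⟨n, hn, hxn⟩ := (mem_filter.1 hx).2
      exact n.2.2 ⟨x, hxn, hm⟩
    have h1 : XA.card ≤ YA.card := by
      refine card_le_card_of_injOn e ?_ ?_
      · intro x hx
        have hx' : x ∈ XA := hx
        obtain ⟨n, hn, hxn⟩ := (mem_filter.1 hx').2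
        have hex := he x (hnm x hx')
        refine mem_filter.2 ⟨mem_univ _, ?_, fun hm => hm x hex.symm⟩
        exact mem_biUnion.2 ⟨n, hn, mem_filter.2 ⟨mem_univ _, x, e x, hxn, rfl, hex⟩⟩
      · intro x hx y hy hxy
        have hx' : x ∈ XA := hx
        have hy' : y ∈ XA := hy
        have h1 := (he x (hnm x hx')).symm
        have h2 := (he y (hnm y hy')).symm
        rw [← hxy] at h2
        exact ext_unique h h1 h2
    have h2 : YA.card ≤ 3 * (s.biUnion t).card := by
      refine card_le_mul_card_image_of_maps_to (f := fun y => nd h y) (fun y hy =>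
        (mem_filter.1 hy).2.1) 3 ?_
      intro m hm
      refine le_trans (card_le_card ?_) (card_node_le h m)
      intro y hy
      simp only [mem_filter, mem_univ, true_and, YA] at hy ⊢
      exact ⟨hy.2, hy.1.2⟩
    have h3 : 3 * (s.image Subtype.val).card ≤ XA.card := by
      refine mul_card_image_le_card_of_maps_to (f := fun y => nd h y) ?_ 3 ?_
      · intro x hx
        obtain ⟨n, hn, hxn⟩ := (mem_filter.1 hx).2
        exact mem_image.2 ⟨n, hn, hxn.symm⟩
      · intro m hm
        obtain ⟨n, hn, rfl⟩ := mem_image.1 hm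
        refine (three_le_card_node h n.1).trans (card_le_card ?_)
        intro y hy
        simp only [mem_filter, mem_univ, true_and, XA] at hy ⊢
        exact ⟨⟨n, hn, hy⟩, hy⟩
    rw [card_image_of_injective _ Subtype.val_injective] at h3
    omega
  obtain ⟨f, hf, hft⟩ := (all_card_le_biUnion_card_iff_exists_injective t).1 hall
  exact ⟨f, hf, fun n => (mem_filter.1 (hft n)).2⟩

/-- A graph that is not 2-colourable has a closed odd sequence without backtracking. -/
theorem exists_cyclic {W : Type*} (R : SimpleGraph W) (hR : ¬ R.Colorable 2) :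
    ∃ (L : ℕ) (f : ℤ → W), Odd L ∧ (∀ i, f (i + L) = f i) ∧ (∀ i, R.Adj (f i) (f (i + 1))) ∧
      ∀ i, f (i - 1) ≠ f (i + 1) := by
  classical
  rw [SimpleGraph.two_colorable_iff_forall_loop_even] at hR
  push Not at hR
  obtain ⟨u, w, hw⟩ := hR
  have hodd : Odd w.length := Nat.not_even_iff_odd.1 hw
  let P : ℕ → Prop := fun L => Odd L ∧ ∃ f : ℤ → W, (∀ i, f (i + L) = f i) ∧
    ∀ i, R.Adj (f i) (f (i + 1))
  have hex : ∃ L, P L := by
    refine ⟨w.length, hodd, fun i => w.getVert (i % w.length).toNat, ?_, ?_⟩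
    · intro i
      simp
    · intro i
      have hpos : (0 : ℤ) < w.length := by exact_mod_cast hodd.pos
      have h1 : 0 ≤ i % w.length := Int.emod_nonneg _ hpos.ne'
      have h2 : i % w.length < w.length := Int.emod_lt_of_pos _ hpos
      obtain ⟨k, hk⟩ := Int.eq_ofNat_of_zero_le h1
      have hk' : k < w.length := by exact_mod_cast hk ▸ h2
      have h3 : (i + 1) % w.length = ((k : ℤ) + 1) % w.length := by
        rw [← hk, Int.emod_add_emod]
      show R.Adj (w.getVert (i % w.length).toNat) (w.getVert ((i + 1) % w.length).toNat)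
      rw [h3, hk]
      by_cases hlast : k + 1 = w.length
      · have h4 : ((k : ℤ) + 1) % w.length = 0 := by
          rw [← hlast]; push_cast; exact Int.emod_self
        rw [h4]
        have h5 := w.adj_getVert_succ hk'
        rw [hlast, w.getVert_length] at h5
        simpa using h5
      · have h4 : ((k : ℤ) + 1) % w.length = k + 1 := by
          apply Int.emod_eq_of_lt <;> omega
        rw [h4]
        have h5 := w.adj_getVert_succ hk'
        simpa using h5
  obtain ⟨hL, f, hf1, hf2⟩ := Nat.find_spec hex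
  have hmin := fun m (hm : m < Nat.find hex) => Nat.find_min hex hm
  set L := Nat.find hex with hLdef
  refine ⟨L, f, hL, hf1, hf2, ?_⟩
  intro i hi
  have hL1 : L ≠ 1 := by
    intro h1
    have h2 := hf1 0
    have h3 := hf2 0
    rw [h1] at h2
    have h4 : f (0 + 1) = f 0 := by exact_mod_cast h2
    rw [h4] at h3
    exact R.irrefl h3
  have hL3 : 3 ≤ L := by
    obtain ⟨k, hk⟩ := hL
    omega
  apply hmin (L - 2) (by omega)
  have hodd2 : Odd (L - 2) := by
    obtain ⟨k, hk⟩ := hL
    exact ⟨k - 1, by omega⟩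
  refine ⟨hodd2, fun j => f (i + 1 + j % (L - 2 : ℕ)), ?_, ?_⟩
  · intro j
    simp
  · intro j
    have hpos : (0 : ℤ) < ((L - 2 : ℕ) : ℤ) := by
      have : 0 < L - 2 := by omega
      exact_mod_cast this
    have h1 : 0 ≤ j % ((L - 2 : ℕ) : ℤ) := Int.emod_nonneg _ hpos.ne'
    have h2 : j % ((L - 2 : ℕ) : ℤ) < ((L - 2 : ℕ) : ℤ) := Int.emod_lt_of_pos _ hpos
    show R.Adj (f (i + 1 + j % ((L - 2 : ℕ) : ℤ))) (f (i + 1 + (j + 1) % ((L - 2 : ℕ) : ℤ)))
    have h3 : (j + 1) % ((L - 2 : ℕ) : ℤ) = (j % ((L - 2 : ℕ) : ℤ) + 1) % ((L - 2 : ℕ) : ℤ) := by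
      rw [Int.emod_add_emod]
    rw [h3]
    set r := j % ((L - 2 : ℕ) : ℤ) with hr
    by_cases hlast : r + 1 = ((L - 2 : ℕ) : ℤ)
    · rw [hlast, Int.emod_self, add_zero]
      have h4 : f (i + 1 + r + 1) = f (i - 1) := by
        have h5 : i + 1 + r + 1 = (i - 1) + L := by
          have : ((L - 2 : ℕ) : ℤ) = L - 2 := by omega
          omega
        rw [h5, hf1]
      have h6 := hf2 (i + 1 + r)
      rw [h4, hi] at h6
      exact h6
    · rw [Int.emod_eq_of_lt (by omega) (by omega)]
      have h6 := hf2 (i + 1 + r)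
      rwa [add_assoc (i + 1) r 1] at h6

end Pool.Agent.Helper97K9.ClawFree
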