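import Pool.Agent.Helper97K9.ClawFree2
set_option autoImplicit false

/-!
The two packings and the two independent sets of a claw-free cubic graph.
-/

namespace Pool.Agent.Helper97K9.ClawFree

variable {V : Type*} {G : SimpleGraph V}

theorem walk_two (h : CF G) {u p v : V} (hne : nd h u ≠ nd h v)
    (hna : ¬ NA h (nd h u) (nd h v)) (h1 : G.Adj u p) (h2 : G.Adj p v) : False := by
  rcases int_or_ext h1 with i1 | e1
  · rcases int_or_ext h2 with i2 | e2
    · exact hne ((nd_of_int h i1).trans (nd_of_int h i2))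
    · exact hna ⟨p, v, (nd_of_int h i1).symm, rfl, e2⟩
  · rcases int_or_ext h2 with i2 | e2
    · exact hna ⟨u, p, rfl, nd_of_int h i2, e1⟩
    · exact hne (by rw [ext_unique h e1.symm e2])

theorem walk_three (h : CF G) {u p q v : V} (hne : nd h u ≠ nd h v)
    (hna : ¬ NA h (nd h u) (nd h v)) (h1 : G.Adj u p) (h2 : G.Adj p q) (h3 : G.Adj q v) :
    Ext G u p ∧ Int G p q ∧ Ext G q v := by
  rcases int_or_ext h1 with i1 | e1
  · rw [nd_of_int h i1] at hne hna
    exact (walk_two h hne hna h2 h3).elim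
  rcases int_or_ext h3 with i3 | e3
  · rw [← nd_of_int h i3] at hne hna
    exact (walk_two h hne hna h1 h2).elim
  rcases int_or_ext h2 with i2 | e2
  · exact ⟨e1, i2, e3⟩
  · have := ext_unique h e1.symm e2
    subst this
    exact (hna ⟨u, v, rfl, rfl, e3⟩).elim

theorem main [Finite V] (h : CF G) : ∃ X2 X3 : Set V,
    (∀ u ∈ X2, ∀ v ∈ X2, u ≠ v → ¬ G.Adj u v ∧ ∀ p, G.Adj u p → G.Adj p v → False) ∧
    (∀ u ∈ X3, ∀ v ∈ X3, u ≠ v → ¬ G.Adj u v ∧ (∀ p, G.Adj u p → G.Adj p v → False) ∧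
      ∀ p q, G.Adj u p → G.Adj p q → G.Adj q v → False) ∧
    ∃ c : V → Fin 2, ∀ u v, u ∉ X2 → u ∉ X3 → v ∉ X2 → v ∉ X3 → G.Adj u v → c u ≠ c v := by
  classical
  have : Finite (Node h) := Quotient.finite _
  obtain ⟨D, -, hDP, hDind, hDmax⟩ := exists_mis (NA h) (NA.irrefl h) (fun _ _ => NA.symm h)
    {n | HasMid h n} ∅ (by simp) (by simp)
  obtain ⟨I, hDI, -, hIind, hImax⟩ := exists_mis (NA h) (NA.irrefl h) (fun _ _ => NA.symm h)
    Set.univ D (by simp) hDind
  have hDI' : ∀ n, HasMid h n → n ∉ I → ∃ m ∈ I, HasMid h m ∧ NA h n m := by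
    intro n hn hnI
    obtain ⟨m, hm, hnm⟩ := hDmax n hn (fun hnD => hnI (hDI hnD))
    exact ⟨m, hDI hm, hDP hm, hnm⟩
  obtain ⟨f, hf, hfNA⟩ := exists_matching h I
  have hm : ∀ n : Node h, ∃ m₁ m₂, HasMid h n → MidPair h n m₁ m₂ := by
    intro n
    by_cases hn : HasMid h n
    · obtain ⟨a, b, hab⟩ := exists_midPair h hn
      exact ⟨a, b, fun _ => hab⟩
    · obtain ⟨x, -⟩ := Quotient.exists_rep n
      exact ⟨x, x, fun hh => (hn hh).elim⟩
  choose m₁ m₂ hmp using hm
  have hs : ∀ n : Node h, ∃ x, nd h x = n ∧ (HasMid h n → x = m₁ n) ∧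
      (∀ hn : n ∈ I ∧ ¬ HasMid h n, ∃ y, Ext G x y ∧ nd h y = f ⟨n, hn⟩) ∧
      (¬ HasMid h n → n ∉ I → ∃ y, Ext G x y ∧ nd h y ∈ I) := by
    intro n
    by_cases hn : HasMid h n
    · exact ⟨m₁ n, (hmp n hn).nd1, fun _ => rfl, fun h' => (h'.2 hn).elim,
        fun h' => (h' hn).elim⟩
    · by_cases hI : n ∈ I
      · obtain ⟨x, y, hx, hy, hxy⟩ := hfNA ⟨n, hI, hn⟩
        exact ⟨x, hx, fun h' => (hn h').elim, fun _ => ⟨y, hxy, hy⟩, fun _ h' => (h' hI).elim⟩
      · obtain ⟨m, hmI, x, y, hx, hy, hxy⟩ := hImax n trivial hI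
        exact ⟨x, hx, fun h' => (hn h').elim, fun h' => (hI h'.1).elim,
          fun _ _ => ⟨y, hxy, hy.symm ▸ hmI⟩⟩
  choose s hsn hsm hsI hsN using hs
  let blocked : Node h → Prop := fun n => ∃ n', n' ∉ I ∧ ¬ HasMid h n' ∧
    ∃ y, Ext G (s n') y ∧ nd h y = n
  let X3 : Set V := {v | ∃ n, n ∈ I ∧ v = s n}
  let X2 : Set V := {v | (∃ n, n ∉ I ∧ v = s n) ∨
    ∃ n, n ∈ I ∧ HasMid h n ∧ ¬ blocked n ∧ v = m₂ n}
  have hs3 : ∀ n, n ∈ I → s n ∈ X3 := fun n hn => ⟨n, hn, rfl⟩
  have hs2 : ∀ n, n ∉ I → s n ∈ X2 := fun n hn => Or.inl ⟨n, hn, rfl⟩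
  have hX2ext : ∀ u ∈ X2, ∀ y, Ext G u y →
      ∃ n, n ∉ I ∧ ¬ HasMid h n ∧ u = s n ∧ nd h y ∈ I := by
    intro u hu y huy
    rcases hu with ⟨n, hn, rfl⟩ | ⟨n, hn, hnm, -, rfl⟩
    · have hnm : ¬ HasMid h n := by
        intro hnm
        rw [hsm n hnm] at huy
        exact (hmp n hnm).mid1 y huy
      obtain ⟨z, hz, hzI⟩ := hsN n hnm hn
      rw [ext_unique h hz huy] at hzI
      exact ⟨n, hn, hnm, rfl, hzI⟩
    · exact ((hmp n hnm).mid2 y huy).elim
  have hX2in : ∀ u ∈ X2, nd h u ∈ I → ¬ blocked (nd h u) := by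
    intro u hu huI
    rcases hu with ⟨n, hn, rfl⟩ | ⟨n, hn, hnm, hb, rfl⟩
    · rw [hsn] at huI
      exact (hn huI).elim
    · rwa [(hmp n hnm).nd2]
  refine ⟨X2, X3, ?_, ?_, ?_⟩
  · intro u hu v hv huv
    have hne : nd h u ≠ nd h v := by
      intro he
      rcases hu with ⟨n, hn, rfl⟩ | ⟨n, hn, hnm, hb, rfl⟩ <;>
        rcases hv with ⟨n', hn', rfl⟩ | ⟨n', hn', hnm', hb', rfl⟩
      · rw [hsn, hsn] at he
        exact huv (by rw [he])
      · rw [hsn, (hmp n' hnm').nd2] at he
        exact hn (he ▸ hn')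
      · rw [hsn, (hmp n hnm).nd2] at he
        exact hn' (he ▸ hn)
      · rw [(hmp n hnm).nd2, (hmp n' hnm').nd2] at he
        exact huv (by rw [he])
    have aux : ∀ u ∈ X2, ∀ v ∈ X2, ∀ p, Int G u p → Ext G p v → False := by
      intro u hu v hv p i1 e2
      obtain ⟨n', hn', hnm', rfl, hI'⟩ := hX2ext v hv p e2.symm
      rw [← nd_of_int h i1] at hI'
      exact hX2in u hu hI' ⟨n', hn', hnm', p, e2.symm, (nd_of_int h i1).symm⟩
    refine ⟨fun ha => ?_, fun p h1 h2 => ?_⟩
    · rcases int_or_ext ha with i | e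
      · exact hne (nd_of_int h i)
      · obtain ⟨n, hn, hnm, rfl, hI⟩ := hX2ext u hu v e
        obtain ⟨n', hn', hnm', rfl, hI'⟩ := hX2ext v hv _ e.symm
        rw [hsn] at hI
        exact hn' hI
    · rcases int_or_ext h1 with i1 | e1
      · rcases int_or_ext h2 with i2 | e2
        · exact hne ((nd_of_int h i1).trans (nd_of_int h i2))
        · exact aux u hu v hv p i1 e2
      · rcases int_or_ext h2 with i2 | e2
        · exact aux v hv u hu p i2.symm e1.symm
        · exact huv (ext_unique h e1.symm e2)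
  · intro u hu v hv huv
    obtain ⟨n, hn, rfl⟩ := hu
    obtain ⟨n', hn', rfl⟩ := hv
    have hnn : n ≠ n' := fun e => huv (by rw [e])
    have hne : nd h (s n) ≠ nd h (s n') := by rwa [hsn, hsn]
    have hna : ¬ NA h (nd h (s n)) (nd h (s n')) := by
      rw [hsn, hsn]
      exact hIind n hn n' hn'
    refine ⟨fun ha => ?_, fun p h1 h2 => walk_two h hne hna h1 h2, fun p q h1 h2 h3 => ?_⟩
    · rcases int_or_ext ha with i | e
      · exact hne (nd_of_int h i)
      · exact hna ⟨_, _, rfl, rfl, e⟩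
    · obtain ⟨e1, i2, e3⟩ := walk_three h hne hna h1 h2 h3
      have hnm : ¬ HasMid h n := by
        intro hnm
        rw [hsm n hnm] at e1
        exact (hmp n hnm).mid1 _ e1
      have hnm' : ¬ HasMid h n' := by
        intro hnm'
        rw [hsm n' hnm'] at e3
        exact (hmp n' hnm').mid1 _ e3.symm
      obtain ⟨y, hy, hyf⟩ := hsI n ⟨hn, hnm⟩
      obtain ⟨y', hy', hyf'⟩ := hsI n' ⟨hn', hnm'⟩
      rw [ext_unique h hy e1] at hyf
      rw [ext_unique h hy' e3.symm] at hyf'
      rw [nd_of_int h i2, hyf'] at hyf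
      have := congrArg Subtype.val (hf hyf)
      exact hnn this.symm
  · let R : SimpleGraph V :=
      { Adj := fun u v => G.Adj u v ∧ (u ∉ X2 ∧ u ∉ X3) ∧ (v ∉ X2 ∧ v ∉ X3)
        symm := ⟨fun u v huv => ⟨huv.1.symm, huv.2.2, huv.2.1⟩⟩
        loopless := ⟨fun u hu => G.irrefl hu.1⟩ }
    suffices hR : R.Colorable 2 by
      obtain ⟨c⟩ := hR
      exact ⟨c, fun u v hu2 hu3 hv2 hv3 ha => c.valid (show R.Adj u v from
        ⟨ha, ⟨hu2, hu3⟩, ⟨hv2, hv3⟩⟩)⟩
    by_contra hR
    obtain ⟨L, g, hL, hper, hadj, hback⟩ := exists_cyclic R hR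
    let Nice : (ℤ → V) → Prop := fun g => (∀ i, G.Adj (g i) (g (i + 1))) ∧
      (∀ i, g i ∉ X2 ∧ g i ∉ X3) ∧ ∀ i, g (i - 1) ≠ g (i + 1)
    have shift : ∀ g, Nice g → ∀ j, Nice (fun i => g (i + j)) := by
      rintro g ⟨h1, h2, h3⟩ j
      refine ⟨fun i => ?_, fun i => h2 _, fun i => ?_⟩
      · have := h1 (i + j)
        rwa [show i + j + 1 = i + 1 + j by ring] at this
      · have := h3 (i + j)
        rwa [show i + j + 1 = i + 1 + j by ring, show i + j - 1 = i - 1 + j by ring] at this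
    have rev : ∀ g, Nice g → Nice (fun i => g (-i)) := by
      rintro g ⟨h1, h2, h3⟩
      refine ⟨fun i => ?_, fun i => h2 _, fun i => ?_⟩
      · have := h1 (-(i + 1))
        rw [show -(i + 1) + 1 = -i by ring] at this
        exact this.symm
      · have := h3 (-i)
        rw [show -i + 1 = -(i - 1) by ring, show -i - 1 = -(i + 1) by ring] at this
        exact this.symm
    have hnice : Nice g := ⟨fun i => (hadj i).1, fun i => (hadj i).2.1, hback⟩
    -- neighbours of the chosen middle vertex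
    have nbrs : ∀ g, Nice g → ∀ n, HasMid h n → g 0 = m₂ n →
        (nd h (g 1) = n ∧ g 1 ≠ m₁ n ∧ g 1 ≠ m₂ n) := by
      rintro g ⟨h1, h2, h3⟩ n hn hg
      have ha := h1 0
      rw [zero_add, hg] at ha
      refine ⟨?_, ?_, ha.ne'⟩
      · rcases int_or_ext ha with i | e
        · exact (nd_of_int h i).symm.trans (hmp n hn).nd2
        · exact ((hmp n hn).mid2 _ e).elim
      · intro e
        rw [← hsm n hn] at e
        by_cases hI : n ∈ I
        · exact (h2 1).2 (e ▸ hs3 n hI)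
        · exact (h2 1).1 (e ▸ hs2 n hI)
    have m1K : ∀ g, Nice g → ∀ n, HasMid h n → ∀ i, g i ≠ m₁ n := by
      rintro g ⟨h1, h2, h3⟩ n hn i e
      rw [← hsm n hn] at e
      by_cases hI : n ∈ I
      · exact (h2 i).2 (e ▸ hs3 n hI)
      · exact (h2 i).1 (e ▸ hs2 n hI)
    have sK : ∀ g, Nice g → ∀ n i, g i ≠ s n := by
      rintro g ⟨h1, h2, h3⟩ n i e
      by_cases hI : n ∈ I
      · exact (h2 i).2 (e ▸ hs3 n hI)
      · exact (h2 i).1 (e ▸ hs2 n hI)
    have c2I : ∀ g, Nice g → ∀ n, HasMid h n → n ∈ I → g 0 ≠ m₂ n := by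
      intro g hg n hn hI e0
      have hb : blocked n := by
        by_contra hb
        exact (hg.2.1 0).1 (Or.inr ⟨n, hI, hn, hb, e0⟩)
      obtain ⟨n', hn', hnm', y, hy, hyn⟩ := hb
      have hy1 : y ≠ m₁ n := by
        rintro rfl
        exact (hmp n hn).mid1 _ hy.symm
      have hy2 : y ≠ m₂ n := by
        rintro rfl
        exact (hmp n hn).mid2 _ hy.symm
      have inner : ∀ g, Nice g → g 0 = m₂ n → y = g 1 → False := by
        rintro g hg e0 e1
        have ha := hg.1 1
        have hb := hg.2.2 1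
        rw [show (1 : ℤ) + 1 = 2 by norm_num] at ha hb
        rw [show (1 : ℤ) - 1 = 0 by norm_num, e0] at hb
        rw [← e1] at ha
        obtain ⟨a1, a2⟩ := (hmp n hn).adj1 y hyn hy1 hy2
        have hs1 : s n' ≠ m₁ n := by
          intro e
          rw [e] at hy
          exact (hmp n hn).mid1 _ hy
        have hs2' : s n' ≠ m₂ n := by
          intro e
          rw [e] at hy
          exact (hmp n hn).mid2 _ hy
        exact four h a1 a2 hy.1.symm ha (hmp n hn).ne hs1.symm (m1K g hg n hn 2).symm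
          hs2'.symm hb (sK g hg n' 2).symm
      obtain ⟨b1, b2, b3⟩ := nbrs g hg n hn e0
      obtain ⟨c1, c2, c3⟩ := nbrs _ (rev g hg) n hn (by simpa using e0)
      rcases (hmp n hn).two y (g 1) (g (-1)) hyn b1 c1 hy1 hy2 b2 b3 c2 c3 with e | e | e
      · exact inner g hg e0 e
      · exact inner _ (rev g hg) (by simpa using e0) e
      · have := hg.2.2 0
        rw [zero_sub, zero_add] at this
        exact this e.symm
    have c2N : ∀ g, Nice g → ∀ n, HasMid h n → n ∉ I → g 0 ≠ m₂ n := by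
      intro g hg n hn hI e0
      obtain ⟨m, hmI, hmm, x, y, hx, hy, hxy⟩ := hDI' n hn hI
      have hx1 : x ≠ m₁ n := by
        rintro rfl
        exact (hmp n hn).mid1 _ hxy
      have hx2 : x ≠ m₂ n := by
        rintro rfl
        exact (hmp n hn).mid2 _ hxy
      have hy1 : y ≠ m₁ m := by
        rintro rfl
        exact (hmp m hmm).mid1 _ hxy.symm
      have hy2 : y ≠ m₂ m := by
        rintro rfl
        exact (hmp m hmm).mid2 _ hxy.symm
      have inner : ∀ g, Nice g → g 0 = m₂ n → x = g 1 → False := by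
        rintro g hg e0 e1
        have ha := hg.1 1
        have hb := hg.2.2 1
        rw [show (1 : ℤ) + 1 = 2 by norm_num] at ha hb
        rw [show (1 : ℤ) - 1 = 0 by norm_num, e0] at hb
        rw [← e1] at ha
        obtain ⟨a1, a2⟩ := (hmp n hn).adj1 x hx hx1 hx2
        have hym1 : m₁ n ≠ y := by
          rintro rfl
          exact (hmp n hn).mid1 _ hxy.symm
        have hym2 : m₂ n ≠ y := by
          rintro rfl
          exact (hmp n hn).mid2 _ hxy.symm
        have e2 : g 2 = y := by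
          rcases nbr3 h a1 a2 hxy.1 (hmp n hn).ne hym1 hym2 _ ha with e | e | e
          · exact (m1K g hg n hn 2 e).elim
          · exact (hb e.symm).elim
          · exact e
        have ha3 := hg.1 2
        have hb3 := hg.2.2 2
        rw [show (2 : ℤ) + 1 = 3 by norm_num] at ha3 hb3
        rw [show (2 : ℤ) - 1 = 1 by norm_num, ← e1] at hb3
        rw [e2] at ha3
        obtain ⟨a3, a4⟩ := (hmp m hmm).adj1 y hy hy1 hy2
        have hxm1 : m₁ m ≠ x := by
          rintro rfl
          exact (hmp m hmm).mid1 _ hxy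
        have hxm2 : m₂ m ≠ x := by
          rintro rfl
          exact (hmp m hmm).mid2 _ hxy
        rcases nbr3 h a3 a4 hxy.1.symm (hmp m hmm).ne hxm1 hxm2 _ ha3 with e | e | e
        · exact m1K g hg m hmm 3 e
        · exact c2I _ (shift g hg 3) m hmm hmI (by simpa using e)
        · exact hb3 e.symm
      obtain ⟨b1, b2, b3⟩ := nbrs g hg n hn e0
      obtain ⟨c1, c2, c3⟩ := nbrs _ (rev g hg) n hn (by simpa using e0)
      rcases (hmp n hn).two x (g 1) (g (-1)) hx b1 c1 hx1 hx2 b2 b3 c2 c3 with e | e | e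
      · exact inner g hg e0 e
      · exact inner _ (rev g hg) (by simpa using e0) e
      · have := hg.2.2 0
        rw [zero_sub, zero_add] at this
        exact this e.symm
    have c2 : ∀ g, Nice g → ∀ n, HasMid h n → ∀ i, g i ≠ m₂ n := by
      intro g hg n hn i
      by_cases hI : n ∈ I
      · simpa using c2I _ (shift g hg i) n hn hI
      · simpa using c2N _ (shift g hg i) n hn hI
    have c3 : ∀ g, Nice g → ∀ i, ¬ HasMid h (nd h (g i)) := by
      intro g hg i hn
      obtain ⟨a1, a2⟩ := (hmp _ hn).adj1 (g i) rfl (m1K g hg _ hn i) (c2 g hg _ hn i)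
      have ha := hg.1 i
      have hb := hg.1 (i - 1)
      rw [sub_add_cancel] at hb
      exact four h a1 a2 hb.symm ha (hmp _ hn).ne (m1K g hg _ hn _).symm
        (m1K g hg _ hn _).symm (c2 g hg _ hn _).symm (c2 g hg _ hn _).symm (hg.2.2 i)
    have c4 : ∀ i, Int G (g i) (g (i + 1)) ↔ ¬ Int G (g (i + 1)) (g (i + 1 + 1)) := by
      intro i
      have ha := hnice.1 i
      have hb := hnice.1 (i + 1)
      have hne := hnice.2.2 (i + 1)
      rw [add_sub_cancel_right] at hne
      have hnm := c3 g hnice (i + 1)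
      constructor
      · intro h1 h2
        have hσn : nd h (s (nd h (g (i + 1)))) = nd h (g (i + 1)) := hsn _
        have hσ := adj_of_not_hasMid h hσn.symm (sK g hnice _ _) hnm
        have hmid : ¬ Mid G (g (i + 1)) := fun hm => hnm ⟨_, rfl, hm⟩
        obtain ⟨e, he⟩ := exists_ext_of_not_mid hmid
        refine four h h1.1.symm h2.1 hσ he.1 hne (sK g hnice _ _) ?_ (sK g hnice _ _) ?_ ?_
        · rintro rfl
          exact not_int_ext h1.symm he
        · rintro rfl
          exact not_int_ext h2 he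
        · rintro rfl
          exact nd_ne_of_ext h he hσn.symm
      · intro h2
        by_contra h1
        have e1 := (int_or_ext ha).resolve_left h1
        have e2 := (int_or_ext hb).resolve_left h2
        exact hne (ext_unique h e1.symm e2)
    have par : ∀ k : ℕ, Int G (g k) (g (k + 1)) ↔ (Int G (g 0) (g (0 + 1)) ↔ Even k) := by
      intro k
      induction k with
      | zero => simp
      | succ k ih =>
        have h4 := c4 k
        push_cast
        rw [Nat.even_add_one]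
        tauto
    have hLp := par L
    have e1 : g L = g 0 := by
      have := hper 0
      rwa [zero_add] at this
    have e2 : g (L + 1) = g (0 + 1) := by
      have := hper 1
      rwa [add_comm] at this
    rw [e1, e2] at hLp
    have : ¬ Even L := Nat.not_even_iff_odd.2 hL
    tauto

end Pool.Agent.Helper97K9.ClawFree
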